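import Mathlib
import Pool.Agent.LPX.A4

namespace Pool.Agent.Results.MP_2f88e5_nt.PrimeFactor129

/-- For all large primes `p` and every odd `a < 2p` prime to `p` (in particular `a = 1`), at least
`p / 100` of the admissible `k` (`1 ≤ k < 2(p+1)`, `p ∤ k`) are such that `2kp + a` has a prime
factor larger than `p ^ (129/100)`. -/
theorem result : ∃ p₀ : ℕ, ∀ p : ℕ, p.Prime → p₀ ≤ p → ∀ a : ℕ, Odd a → a < 2 * p → ¬ p ∣ a →
    (p : ℝ) / 100 ≤ ({k : ℕ | 1 ≤ k ∧ k < 2 * (p + 1) ∧ ¬ p ∣ k ∧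
      ∃ l : ℕ, l.Prime ∧ l ∣ 2 * k * p + a ∧ (p : ℝ) ^ (129 / 100 : ℝ) < l}.ncard : ℝ) :=
  Pool.Agent.LPX.large_prime_factor

end Pool.Agent.Results.MP_2f88e5_nt.PrimeFactor129
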