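import Mathlib
import Pool.Agent.LPX.J3

namespace Pool.Agent.Results.MP_2f88e5_nt.PrimeFactorAsymptotic

/-- For every `κ > 0` there are `C, δ > 0` such that for all primes `p`, all odd `a < 2p` prime to
`p` (in particular `a = 1`) and all real `2p ≤ y ≤ z ≤ p ^ (10/9 - κ)`, the number of admissible `k`
(`1 ≤ k < 2(p+1)`, `p ∤ k`) for which `2kp + a` has a prime factor in `(y, z]` is
`2p ∑_{y < r ≤ z} 1/r` (`r` prime) up to an error of at most `C p ^ (1 - δ)`. -/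
theorem result (κ : ℝ) (hκ : 0 < κ) : ∃ C δ : ℝ, 0 < C ∧ 0 < δ ∧
    ∀ p : ℕ, p.Prime → ∀ a : ℕ, Odd a → a < 2 * p → ¬ p ∣ a → ∀ y z : ℝ, 2 * p ≤ y → y ≤ z →
      z ≤ (p : ℝ) ^ (10 / 9 - κ : ℝ) →
      |({k : ℕ | 1 ≤ k ∧ k < 2 * (p + 1) ∧ ¬ p ∣ k ∧
        ∃ r : ℕ, r.Prime ∧ y < r ∧ r ≤ z ∧ r ∣ 2 * k * p + a}.ncard : ℝ) -
        2 * p * ∑ r ∈ (Finset.Icc 1 ⌊z⌋₊).filter (fun r : ℕ => r.Prime ∧ y < r), (1 : ℝ) / r| ≤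
        C * (p : ℝ) ^ (1 - δ : ℝ) :=
  Pool.Agent.LPX.asymptotic κ hκ

end Pool.Agent.Results.MP_2f88e5_nt.PrimeFactorAsymptotic
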