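import Mathlib
import Pool.Agent.SVP.Fin
import Pool.Agent.PFo.Fin

namespace Pool.Agent.Results.MP_2f88e5_nt.PrimeForest

/-- There are `c, η, δ, C, A, B > 0`, `η < 1`, and a set `G` of odd primes such that:

* at most `C X^(1-δ)` primes `p ≤ X` are not in `G`;
* for `p ∈ G` and every real `K` in `[p^(1-η), 2(p+1))` at least `c K / log p` of the `k ≤ K` prime to `p` have
  `2kp + 1 ∈ G`, and at most `K p^(-δ)` of them have `2kp + 1` prime but not in `G`;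
* for `p ∈ G` and `x ≥ p^B` at least `x / (p^B (log x)^A)` numbers `N ≤ x` are reached from `p` by finitely many
  steps `q → 2kq + 1 ∈ G` with `1 ≤ k ≤ q^(1-η)`;
* an infinite chain of such steps starts at every `p ∈ G`;
* every residue class `a` mod `m` with `(a, m) = 1` contains infinitely many elements of `G`;
* for every odd prime `p` there are infinitely many `k` with `2kp + 1 ∈ G`. -/
theorem result : ∃ (c η δ C A B : ℝ) (G : Set ℕ), 0 < c ∧ 0 < η ∧ η < 1 ∧ 0 < δ ∧ 0 < C ∧ 0 < A ∧ 0 < B ∧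
    (∀ p ∈ G, p.Prime ∧ p ≠ 2) ∧
    (∀ X : ℝ, 2 ≤ X → ({p : ℕ | p.Prime ∧ (p : ℝ) ≤ X ∧ p ∉ G}.ncard : ℝ) ≤ C * X ^ (1 - δ)) ∧
    (∀ p ∈ G, ∀ K : ℝ, (p : ℝ) ^ (1 - η) ≤ K → K < 2 * ((p : ℝ) + 1) →
      c * K / Real.log p ≤
        ({k : ℕ | 1 ≤ k ∧ (k : ℝ) ≤ K ∧ ¬ p ∣ k ∧ 2 * k * p + 1 ∈ G}.ncard : ℝ) ∧
      ({k : ℕ | 1 ≤ k ∧ (k : ℝ) ≤ K ∧ ¬ p ∣ k ∧ (2 * k * p + 1).Prime ∧
        2 * k * p + 1 ∉ G}.ncard : ℝ) ≤ K * (p : ℝ) ^ (-δ)) ∧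
    (∀ p ∈ G, ∀ x : ℝ, (p : ℝ) ^ B ≤ x → x / ((p : ℝ) ^ B * Real.log x ^ A) ≤
      ({N : ℕ | (N : ℝ) ≤ x ∧ Relation.ReflTransGen (fun q r : ℕ => r ∈ G ∧
        ∃ k : ℕ, 1 ≤ k ∧ (k : ℝ) ≤ (q : ℝ) ^ (1 - η) ∧ r = 2 * k * q + 1) p N}.ncard : ℝ)) ∧
    (∀ p ∈ G, ∃ u k : ℕ → ℕ, u 0 = p ∧ ∀ i, u i ∈ G ∧ 1 ≤ k i ∧
      (k i : ℝ) ≤ (u i : ℝ) ^ (1 - η) ∧ u (i + 1) = 2 * k i * u i + 1) ∧
    (∀ m a : ℕ, 0 < m → a.Coprime m → {p : ℕ | p ∈ G ∧ p ≡ a [MOD m]}.Infinite) ∧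
    (∀ p : ℕ, p.Prime → p ≠ 2 → {k : ℕ | 2 * k * p + 1 ∈ G}.Infinite) :=
  Pool.Agent.PFo.result_of Pool.Agent.SVP.fin

end Pool.Agent.Results.MP_2f88e5_nt.PrimeForest
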