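import Mathlib
import Pool.Agent.LBS.Rough

namespace Pool.Agent.Results.MP_2f88e5_nt.RoughParity

/-- There is an absolute constant `C` such that for every prime `p`, every `y ≥ 2` with `y ^ C ≤ p`
and every class `a` modulo `p` prime to `p`, there are integers `n ≡ a (mod p)` with
`0 < n < y ^ C * p ^ 2`, all of whose prime factors exceed `y`, one with an odd and one with an even
number of prime factors (counted with multiplicity). -/
theorem result : ∃ C : ℕ, ∀ p : ℕ, p.Prime → ∀ y : ℕ, 2 ≤ y → y ^ C ≤ p →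
    ∀ a : ℕ, ¬ p ∣ a →
    (∃ n : ℕ, 0 < n ∧ n < y ^ C * p ^ 2 ∧ n ≡ a [MOD p] ∧
      (∀ q : ℕ, q.Prime → q ∣ n → y < q) ∧ Odd (ArithmeticFunction.cardFactors n)) ∧
    (∃ n : ℕ, 0 < n ∧ n < y ^ C * p ^ 2 ∧ n ≡ a [MOD p] ∧
      (∀ q : ℕ, q.Prime → q ∣ n → y < q) ∧ Even (ArithmeticFunction.cardFactors n)) :=
  Pool.Agent.LBS.main_rough

end Pool.Agent.Results.MP_2f88e5_nt.RoughParity
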